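import Pool.Agent.Q41.GT.Stm6
import Pool.Agent.Q162.GT.Gnp

/-!
# Project AH (helper41), job A6: pointed maps to the moduli spaces
-/

set_option autoImplicit false

namespace Pool.Agent.Q211.GT

open Finset Polynomial FF
open Pool.Agent.W603.LV (Ge hgt canDeg)
open Pool.Agent.Q41.GT
open Pool.Agent.Q162.GT (Rs Bm mem_V)

theorem ae {σ K : Type} [Field K] (v : σ → K) (F : MvPolynomial σ K) :
    MvPolynomial.aeval v F = MvPolynomial.eval v F :=
  RingHom.congr_fun (MvPolynomial.coe_aeval_eq_eval v) F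

/-- (A6) -/
theorem pnt' (hv : S_vht) (hh : S_hom) : S_pnt := by
  intro d hd
  obtain ⟨B, hB⟩ := hv d hd
  refine ⟨max B 1, fun n hn k L _ _ _ _ _ _ c a ha => ?_⟩
  have hn1 : 1 ≤ n := le_trans (le_max_right _ _) hn
  have hd1 : 1 ≤ d := by omega
  obtain ⟨C, hC⟩ := hB n (le_trans (le_max_left _ _) hn)
  by_contra hfin
  have hinf : {x : Sg d → L | x ∈ V d n L ∧ ∀ i, Ge c 1 (x i - algebraMap k L (a i))}.Infinite :=
    hfin
  let z := hinf.natEmbedding
  obtain ⟨g, ⟨j, hj⟩, h1, h2⟩ := Pool.Agent.TH152.BB.bb_val Pool.Agent.TH152.BB.bb_all c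
    (fun m => (z m : Sg d → L)) a (C * max (canDeg k L) 0)
    (fun m m' h => z.injective (Subtype.ext h))
    (fun m i => by
      rcases (z m).2.2 i with h | h
      · exact Or.inl (sub_eq_zero.1 h)
      · exact Or.inr (by omega))
    (fun m i => hC k L _ (z m).2.1 i)
  have ha' := (mem_V hh (k := k) d n hd1 hn1 a).1 ha
  have hval : ∀ F : MvPolynomial (Sg d) k, MvPolynomial.aeval a F = MvPolynomial.eval a F := by
    exact ae a
  have hg : g ∈ V d n (RatFunc k) := by
    rw [mem_V hh (k := k) d n hd1 hn1]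
    refine ⟨fun h => ha'.1 ?_, h1 _ fun m => ?_, fun m hm hmn h => ha'.2.2 m hm hmn ?_⟩
    · rw [hval]
      exact h2 _ h
    · exact ((mem_V hh (k := k) d n hd1 hn1 _).1 (z m).2.1).2.1
    · rw [hval]
      exact h2 _ h
  have h3 := hC k (RatFunc k) g hg j
  rw [Pool.Agent.Y216.canDeg_ratFunc] at h3
  exact hj (Pool.Agent.Y216.const_of_hgt (by simpa using h3))

/-- (A6), in the form of the job -/
theorem pnt : S_vht → S_hom → S_gnp → S_pnt := fun h1 h2 _ => pnt' h1 h2

end Pool.Agent.Q211.GT
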