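import Pool.Agent.Q211.GT.A6

/-!
# Project AH (helper41), job A9: pointed maps to quasi-finite covers of the moduli spaces
-/

set_option autoImplicit false

namespace Pool.Agent.Q211.GT

open Finset Polynomial FF
open Pool.Agent.W603.LV (Ge hgt canDeg)
open Pool.Agent.Q41.GT
open Pool.Agent.Q162.GT (Rs Bm mem_V)

/-- An infinite set of points has an infinite subset with a prime vanishing ideal. -/
theorem exists_prime {τ L : Type} [Finite τ] [Field L] (S : Set (τ → L)) (hS : S.Infinite) :
    ∃ S' ⊆ S, S'.Infinite ∧ (MvPolynomial.vanishingIdeal L S').IsPrime := by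
  classical
  have hwf : WellFounded ((· > ·) : Ideal (MvPolynomial τ L) → Ideal (MvPolynomial τ L) → Prop) :=
    wellFounded_gt
  obtain ⟨Q, ⟨S', hS', hinf, rfl⟩, hmax⟩ := hwf.has_min
    {Q | ∃ S' ⊆ S, S'.Infinite ∧ Q = MvPolynomial.vanishingIdeal L S'} ⟨_, S, subset_rfl, hS, rfl⟩
  refine ⟨S', hS', hinf, ?_⟩
  have key : ∀ f : MvPolynomial τ L, {y | y ∈ S' ∧ MvPolynomial.eval y f = 0}.Infinite →
      f ∈ MvPolynomial.vanishingIdeal L S' := by
    intro f hf
    by_contra hcon
    have hle : MvPolynomial.vanishingIdeal L S' ≤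
        MvPolynomial.vanishingIdeal L {y | y ∈ S' ∧ MvPolynomial.eval y f = 0} := by
      intro g hg
      rw [MvPolynomial.mem_vanishingIdeal_iff] at hg ⊢
      exact fun y hy => hg y hy.1
    have hlt : MvPolynomial.vanishingIdeal L S' <
        MvPolynomial.vanishingIdeal L {y | y ∈ S' ∧ MvPolynomial.eval y f = 0} := by
      refine lt_of_le_of_ne hle fun h => hcon ?_
      rw [h, MvPolynomial.mem_vanishingIdeal_iff]
      intro y hy
      rw [ae]
      exact hy.2
    exact hmax _ ⟨_, fun y hy => hS' hy.1, hf, rfl⟩ hlt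
  refine ⟨?_, ?_⟩
  · intro h
    obtain ⟨y, hy⟩ := hinf.nonempty
    have h1 : (1 : MvPolynomial τ L) ∈ MvPolynomial.vanishingIdeal L S' := by
      rw [h]
      exact Submodule.mem_top
    rw [MvPolynomial.mem_vanishingIdeal_iff] at h1
    have := h1 y hy
    simp at this
  · intro f g hfg
    by_contra hcon
    push Not at hcon
    have h1 : {y | y ∈ S' ∧ MvPolynomial.eval y f = 0}.Finite := by
      by_contra h
      exact hcon.1 (key f h)
    have h2 : {y | y ∈ S' ∧ MvPolynomial.eval y g = 0}.Finite := by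
      by_contra h
      exact hcon.2 (key g h)
    refine hinf ((h1.union h2).subset fun y hy => ?_)
    rw [MvPolynomial.mem_vanishingIdeal_iff] at hfg
    have h3 := hfg y hy
    rw [ae, map_mul] at h3
    rcases mul_eq_zero.1 h3 with h | h
    · exact Or.inl ⟨hy, h⟩
    · exact Or.inr ⟨hy, h⟩

/-- A set of points over a field with algebraic generic points is finite. -/
theorem fin_of_alg {τ L : Type} [Finite τ] [Field L] (S : Set (τ → L))
    (h : ∀ (K : Type) [Field K] [Algebra L K] (y : τ → K), ∀ S' ⊆ S, S'.Nonempty →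
      (∀ F : MvPolynomial τ L, MvPolynomial.aeval y F = 0 ↔
        F ∈ MvPolynomial.vanishingIdeal L S') → ∀ j, IsAlgebraic L (y j)) : S.Finite := by
  classical
  by_contra hS
  obtain ⟨S', hS', hinf, hP⟩ := exists_prime S hS
  set P := MvPolynomial.vanishingIdeal L S' with hPdef
  let K := FractionRing (MvPolynomial τ L ⧸ P)
  let y : τ → K := fun i => algebraMap (MvPolynomial τ L ⧸ P) K
    (Ideal.Quotient.mk P (MvPolynomial.X i))
  have hy : ∀ F : MvPolynomial τ L, MvPolynomial.aeval y F = algebraMap (MvPolynomial τ L ⧸ P) K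
      (Ideal.Quotient.mk P F) := by
    intro F
    have h1 : (MvPolynomial.aeval y : MvPolynomial τ L →ₐ[L] K) =
        (IsScalarTower.toAlgHom L (MvPolynomial τ L ⧸ P) K).comp (Ideal.Quotient.mkₐ L P) := by
      apply MvPolynomial.algHom_ext
      intro i
      rw [MvPolynomial.aeval_X]
      rfl
    rw [h1]
    rfl
  have hker : ∀ F : MvPolynomial τ L, MvPolynomial.aeval y F = 0 ↔ F ∈ P := by
    intro F
    rw [hy, ← Ideal.Quotient.eq_zero_iff_mem]
    exact map_eq_zero_iff _ (IsFractionRing.injective (MvPolynomial τ L ⧸ P) K)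
  have halg := h K y S' hS' hinf.nonempty hker
  choose f hf0 hf using halg
  refine hinf ((Set.Finite.pi fun j : τ => (f j).rootSet_finite L).subset fun s hs => ?_)
  rw [Set.mem_univ_pi]
  intro j
  rw [Polynomial.mem_rootSet]
  refine ⟨hf0 j, ?_⟩
  have h1 : (Polynomial.aeval (MvPolynomial.X j : MvPolynomial τ L) (f j)) ∈ P := by
    rw [← hker, ← Polynomial.aeval_algHom_apply, MvPolynomial.aeval_X]
    exact hf j
  rw [hPdef, MvPolynomial.mem_vanishingIdeal_iff] at h1
  have h2 := h1 s hs
  rw [← Polynomial.aeval_algHom_apply, MvPolynomial.aeval_X] at h2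
  exact h2

/-- A point of `U` over an extension is mapped to the moduli space. -/
theorem maps_ext (hh : S_hom) {k τ L : Type} [Field k] [IsAlgClosed k] [Fintype τ] [Field L]
    [Algebra k L] {d n : ℕ} (hd : 1 ≤ d) (hn : 1 ≤ n) {I J : Set (MvPolynomial (τ ⊕ Sg d) k)}
    {U : Set (τ ⊕ Sg d → k)} (hU : QFin d n I J U) (x : τ ⊕ Sg d → L)
    (hI : ∀ F ∈ I, MvPolynomial.aeval x F = 0) (hJ : ∃ G ∈ J, MvPolynomial.aeval x G ≠ 0) :
    (fun i => x (Sum.inr i)) ∈ V d n L := by
  classical
  obtain ⟨G, hG, hGx⟩ := hJ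
  let 𝔭 : Ideal (MvPolynomial (τ ⊕ Sg d) k) :=
    RingHom.ker (MvPolynomial.aeval x : MvPolynomial (τ ⊕ Sg d) k →ₐ[k] L).toRingHom
  have hprime : 𝔭.IsPrime := RingHom.ker_isPrime _
  have hmem : ∀ F : MvPolynomial (τ ⊕ Sg d) k, F ∈ 𝔭 ↔ MvPolynomial.aeval x F = 0 := fun F =>
    RingHom.mem_ker
  -- a polynomial which does not vanish at `x` does not vanish at some point of `U`
  have key : ∀ H : MvPolynomial (τ ⊕ Sg d) k, MvPolynomial.aeval x H ≠ 0 →
      ∃ b ∈ U, MvPolynomial.eval b H ≠ 0 ∧ ∀ F ∈ 𝔭, MvPolynomial.eval b F = 0 := by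
    intro H hH
    have h1 : G * H ∉ 𝔭 := by
      rw [hmem, map_mul]
      exact mul_ne_zero hGx hH
    have h2 : MvPolynomial.vanishingIdeal k (MvPolynomial.zeroLocus k 𝔭) = 𝔭 :=
      MvPolynomial.IsPrime.vanishingIdeal_zeroLocus 𝔭
    rw [← h2, MvPolynomial.mem_vanishingIdeal_iff] at h1
    push Not at h1
    obtain ⟨b, hb, hb1⟩ := h1
    rw [MvPolynomial.mem_zeroLocus_iff] at hb
    rw [ae, map_mul] at hb1
    simp only [ae] at hb
    refine ⟨b, ?_, right_ne_zero_of_mul hb1, hb⟩
    rw [hU.loc]
    exact ⟨fun F hF => hb F ((hmem F).2 (hI F hF)), G, hG, left_ne_zero_of_mul hb1⟩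
  have hren : ∀ {M : Type} [Field M] [Algebra k M] (w : τ ⊕ Sg d → M) (F : MvPolynomial (Sg d) k),
      MvPolynomial.aeval w (MvPolynomial.rename Sum.inr F) =
        MvPolynomial.aeval (fun i => w (Sum.inr i)) F := by
    intro M _ _ w F
    rw [MvPolynomial.aeval_rename]
    rfl
  rw [mem_V hh (k := k) d n hd hn]
  have hkV : ∀ b ∈ U, MvPolynomial.aeval (fun i => b (Sum.inr i)) (Rs k d) ≠ 0 ∧
      MvPolynomial.aeval (fun i => b (Sum.inr i)) (Bm k d n) = 0 ∧
      ∀ m, 1 ≤ m → m < n → MvPolynomial.aeval (fun i => b (Sum.inr i)) (Bm k d m) ≠ 0 :=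
    fun b hb => (mem_V hh (k := k) d n hd hn _).1 (hU.maps b hb)
  -- conditions of the form `≠ 0`
  have hne : ∀ F : MvPolynomial (Sg d) k,
      (∀ b ∈ U, MvPolynomial.aeval (fun i => b (Sum.inr i)) F ≠ 0) →
      MvPolynomial.aeval (fun i => x (Sum.inr i)) F ≠ 0 := by
    intro F hF h
    obtain ⟨b, hb, -, hb2⟩ := key 1 (by rw [map_one]; exact one_ne_zero)
    apply hF b hb
    rw [← hren, ae]
    apply hb2
    rw [hmem, hren]
    exact h
  refine ⟨hne _ fun b hb => (hkV b hb).1, ?_, fun m hm hmn => hne _ fun b hb =>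
    (hkV b hb).2.2 m hm hmn⟩
  by_contra h
  rw [← hren] at h
  obtain ⟨b, hb, hb1, -⟩ := key _ h
  apply hb1
  rw [← ae, hren]
  exact (hkV b hb).2.1

/-- (A9) -/
theorem qpnt : S_pnt → S_hom → S_fin → S_qpnt := by
  intro hp hh hf d hd
  obtain ⟨B, hB⟩ := hp d hd
  refine ⟨max B 1, fun n hn k τ L _ _ _ _ _ _ _ I J U hU c a ha => ?_⟩
  classical
  have hn1 : 1 ≤ n := le_trans (le_max_right _ _) hn
  have hd1 : 1 ≤ d := by omega
  have hfin := hB n (le_trans (le_max_left _ _) hn) k L c (fun i => a (Sum.inr i)) (hU.maps a ha)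
  -- finitely many points over a given point
  have hfib : ∀ x' : Sg d → L, {x : τ ⊕ Sg d → L | (∀ F ∈ I, MvPolynomial.aeval x F = 0) ∧
      (∃ G ∈ J, MvPolynomial.aeval x G ≠ 0) ∧ (fun i => x (Sum.inr i)) = x'}.Finite := by
    intro x'
    -- the restriction of a polynomial to the fibre
    let φ : MvPolynomial (τ ⊕ Sg d) k →ₐ[k] MvPolynomial τ L :=
      MvPolynomial.aeval (Sum.elim MvPolynomial.X fun i => MvPolynomial.C (x' i))
    have hφ : ∀ {M : Type} [Field M] [Algebra k M] [Algebra L M] [IsScalarTower k L M]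
        (y : τ → M) (F : MvPolynomial (τ ⊕ Sg d) k), MvPolynomial.aeval y (φ F) =
          MvPolynomial.aeval (Sum.elim y fun i => algebraMap L M (x' i)) F := by
      intro M _ _ _ _ y F
      have h1 : ((MvPolynomial.aeval y : MvPolynomial τ L →ₐ[L] M).restrictScalars k).comp φ =
          MvPolynomial.aeval (Sum.elim y fun i => algebraMap L M (x' i)) := by
        apply MvPolynomial.algHom_ext
        rintro (i | i)
        · simp [φ]
        · simp [φ]
      rw [← h1]
      rfl
    set S : Set (τ → L) := {y | (∀ F ∈ I, MvPolynomial.aeval (Sum.elim y x') F = 0) ∧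
      ∃ G ∈ J, MvPolynomial.aeval (Sum.elim y x') G ≠ 0} with hS
    have hSfin : S.Finite := by
      apply fin_of_alg
      intro K _ _ y S' hS' hne hker j
      let _ : Algebra k K := ((algebraMap L K).comp (algebraMap k L)).toAlgebra
      have : IsScalarTower k L K := IsScalarTower.of_algebraMap_eq fun _ => rfl
      have hval : ∀ (s : τ → L) (F : MvPolynomial (τ ⊕ Sg d) k),
          MvPolynomial.aeval s (φ F) = MvPolynomial.aeval (Sum.elim s x') F := fun s F => hφ s F
      have h1 := hf k τ d n I J U hU K (Sum.elim y fun i => algebraMap L K (x' i))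
        (by
          intro F hF
          rw [← hφ y F, hker, MvPolynomial.mem_vanishingIdeal_iff]
          intro s hs
          rw [hval]
          exact (hS' hs).1 F hF)
        (by
          obtain ⟨s, hs⟩ := hne
          obtain ⟨G, hG, hGs⟩ := (hS' hs).2
          refine ⟨G, hG, fun h => hGs ?_⟩
          rw [← hφ y G, hker, MvPolynomial.mem_vanishingIdeal_iff] at h
          rw [← hval]
          exact h s hs)
        (Sum.inl j)
      -- algebraic over `k(x')`, so over `L`
      obtain ⟨f, hf0, hf1⟩ := h1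
      have hle : ∀ c ∈ IntermediateField.adjoin k
          (Set.range fun i : Sg d => (Sum.elim y fun i => algebraMap L K (x' i)) (Sum.inr i)),
          c ∈ Set.range (algebraMap L K) := by
        have h2 : IntermediateField.adjoin k
            (Set.range fun i : Sg d => (Sum.elim y fun i => algebraMap L K (x' i)) (Sum.inr i)) ≤
            (IsScalarTower.toAlgHom k L K).fieldRange := by
          rw [IntermediateField.adjoin_le_iff]
          rintro _ ⟨i, rfl⟩
          exact ⟨x' i, rfl⟩
        intro c hc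
        obtain ⟨b, hb⟩ := h2 hc
        exact ⟨b, hb⟩
      by_contra htr
      have htr' : Transcendental L (y j) := htr
      -- lift the coefficients to `L`
      let E := IntermediateField.adjoin k
          (Set.range fun i : Sg d => (Sum.elim y fun i => algebraMap L K (x' i)) (Sum.inr i))
      choose ψ hψ using hle
      let g : L[X] := ∑ m ∈ range (f.natDegree + 1), Polynomial.monomial m
        (ψ (f.coeff m : K) (f.coeff m).2)
      have hg : g.map (algebraMap L K) = f.map (algebraMap E K) := by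
        ext m
        simp only [g, Polynomial.map_sum, Polynomial.map_monomial, hψ,
          Polynomial.finsetSum_coeff, Polynomial.coeff_monomial, Polynomial.coeff_map]
        rw [Finset.sum_ite_eq' (range (f.natDegree + 1)) m (fun b => (f.coeff b : K))]
        split_ifs with hm
        · rfl
        · rw [Finset.mem_range, not_lt] at hm
          rw [Polynomial.coeff_eq_zero_of_natDegree_lt (by omega)]
          simp
      have hg0 : g ≠ 0 := by
        rintro h0
        rw [h0, Polynomial.map_zero] at hg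
        exact hf0 ((Polynomial.map_eq_zero (algebraMap E K)).1 hg.symm)
      refine htr' ⟨g, hg0, ?_⟩
      have h3 : Polynomial.aeval (y j) g = Polynomial.eval (y j) (g.map (algebraMap L K)) := by
        rw [Polynomial.eval_map_algebraMap]
      rw [h3, hg, Polynomial.eval_map_algebraMap]
      exact hf1
    refine ((hSfin.image fun y => Sum.elim y x')).subset ?_
    rintro x ⟨h1, h2, rfl⟩
    have hx : Sum.elim (fun i => x (Sum.inl i)) (fun i => x (Sum.inr i)) = x := by
      funext i
      rcases i with i | i <;> rfl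
    refine ⟨fun i => x (Sum.inl i), ⟨?_, ?_⟩, hx⟩
    · intro F hF
      rw [hx]
      exact h1 F hF
    · obtain ⟨G, hG, hG1⟩ := h2
      refine ⟨G, hG, ?_⟩
      rw [hx]
      exact hG1
  refine (hfin.biUnion fun x' _ => hfib x').subset ?_
  rintro x ⟨h1, h2, h3⟩
  simp only [Set.mem_iUnion]
  exact ⟨fun i => x (Sum.inr i), ⟨maps_ext hh hd1 hn1 hU x h1 h2, fun i => h3 (Sum.inr i)⟩,
    h1, h2, rfl⟩

end Pool.Agent.Q211.GT
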